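import Mathlib
import Pool.Agent.H.MP_44891f_nt.A

set_option autoImplicit false

namespace Pool.Agent.H5124

open Pool.Agent.H4489

/-- `t ^ 3 - a t ^ 2 + b t - 1` has the roots `ρ` and `s ± i √τ` -/
structure Setup (a b : ℤ) (ρ s τ : ℝ) : Prop where
  hρ : 0 < ρ
  hτ : 0 < τ
  h1 : ρ * (s ^ 2 + τ) = 1
  ha : (a : ℝ) = ρ + 2 * s
  hb : (b : ℝ) = 2 * ρ * s + s ^ 2 + τ

/-- minus the discriminant -/
def Dl (a b : ℤ) : ℤ := 4 * a ^ 3 + 4 * b ^ 3 + 27 - a ^ 2 * b ^ 2 - 18 * a * b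

lemma Dl_real (ρ s τ : ℝ) (hρ : 0 < ρ) (h : ρ * (s ^ 2 + τ) = 1) (a b : ℤ)
    (ha : (a : ℝ) = ρ + 2 * s) (hb : (b : ℝ) = 2 * ρ * s + s ^ 2 + τ) :
    ((Dl a b : ℤ) : ℝ) = 4 * τ * ((ρ - s) ^ 2 + τ) ^ 2 := by
  have hτ : τ = 1 / ρ - s ^ 2 := by field_simp; linarith
  unfold Dl; push_cast; rw [ha, hb, hτ]; field_simp; ring

variable {a b : ℤ} {ρ s τ : ℝ}

lemma Setup.Dl_eq (h : Setup a b ρ s τ) :
    ((Dl a b : ℤ) : ℝ) = 4 * τ * ((ρ - s) ^ 2 + τ) ^ 2 := Dl_real ρ s τ h.hρ h.h1 a b h.ha h.hb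

lemma Setup.g_pos (h : Setup a b ρ s τ) : 0 < (ρ - s) ^ 2 + τ := by
  have := h.hτ; positivity

lemma Setup.Dl_pos (h : Setup a b ρ s τ) : 0 < Dl a b := by
  have : (0 : ℝ) < ((Dl a b : ℤ) : ℝ) := by
    rw [h.Dl_eq]; have := h.hτ; have := h.g_pos; positivity
  exact_mod_cast this

lemma Setup.sq (h : Setup a b ρ s τ) : (ρ * s) ^ 2 + ρ ^ 2 * τ = ρ := by
  calc (ρ * s) ^ 2 + ρ ^ 2 * τ = ρ * (ρ * (s ^ 2 + τ)) := by ring
    _ = ρ := by rw [h.h1, mul_one]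

lemma Setup.symm (h : Setup a b ρ s τ) : Setup b a ρ⁻¹ (ρ * s) (ρ ^ 2 * τ) := by
  have hρ := h.hρ
  have hτ := h.hτ
  have hn' : s ^ 2 + τ = ρ⁻¹ := by field_simp; linarith [h.h1]
  refine ⟨by positivity, by positivity, ?_, ?_, ?_⟩
  · rw [h.sq]; field_simp
  · rw [h.hb, ← hn']; ring
  · rw [h.ha, add_assoc, h.sq]; field_simp; ring

lemma Setup.lt_one (h : Setup a b ρ s τ) (hab : a < b) : ρ < 1 := by
  have e : (b : ℝ) - a = (1 - ρ) * ((1 - s) ^ 2 + τ) := by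
    rw [h.ha, h.hb]; linear_combination h.h1
  have h2 : (0 : ℝ) < b - a := by
    have : (a : ℝ) < b := by exact_mod_cast hab
    linarith
  have h3 : 0 < (1 - s) ^ 2 + τ := by have := h.hτ; positivity
  rw [e] at h2
  have := (pos_iff_pos_of_mul_pos h2).mpr h3
  linarith

lemma Setup.rs (h : Setup a b ρ s τ) (c : ℝ) (hc : 0 ≤ c) (hρc : ρ ≤ c ^ 2) :
    -c ≤ ρ * s ∧ ρ * s ≤ c := by
  apply abs_le_of_sq_le_sq' _ hc
  nlinarith [h.sq, mul_pos (pow_pos h.hρ 2) h.hτ]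

lemma Setup.beta (h : Setup a b ρ s τ) (h1 : ρ < 1) : 1 ≤ ρ * (b + 2) := by
  have := h.rs 1 zero_le_one (by linarith)
  have e : ρ * (b + 2) = 1 + 2 * ρ * (1 + ρ * s) := by rw [h.hb]; linear_combination h.h1
  rw [e]
  have := mul_nonneg h.hρ.le (by linarith : 0 ≤ 1 + ρ * s)
  linarith

lemma Setup.w_eq (h : Setup a b ρ s τ) :
    ((4 * b - a ^ 2 : ℤ) : ℝ) = 4 * τ + 4 * (ρ * s) - ρ ^ 2 := by
  push_cast; rw [h.ha, h.hb]; ring

lemma Setup.w_lb (h : Setup a b ρ s τ) (h1 : ρ < 1) : -5 < 4 * b - a ^ 2 := by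
  have := h.rs 1 zero_le_one (by linarith)
  have h2 : (-5 : ℝ) < ((4 * b - a ^ 2 : ℤ) : ℝ) := by
    rw [h.w_eq]; nlinarith [h.hρ, h.hτ]
  exact_mod_cast h2

lemma Setup.small (h : Setup a b ρ s τ) (h1 : ρ < 1) (hb : 66 < b) : ρ ≤ 1 / 64 := by
  have := h.rs 1 zero_le_one (by linarith)
  have hb' : (67 : ℝ) ≤ b := by exact_mod_cast hb
  have e : ρ * (b - 2) = 1 - 2 * ρ * (1 - ρ * s) := by rw [h.hb]; linear_combination h.h1
  have := mul_nonneg h.hρ.le (by linarith : 0 ≤ 1 - ρ * s)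
  nlinarith [h.hρ]

lemma Setup.w_nonneg (h : Setup a b ρ s τ) (h1 : ρ ≤ 1 / 64) : 0 ≤ 4 * b - a ^ 2 := by
  have := h.rs (1 / 8) (by norm_num) (by linarith)
  have h2 : (-1 : ℝ) < ((4 * b - a ^ 2 : ℤ) : ℝ) := by
    rw [h.w_eq]; nlinarith [h.hρ, h.hτ]
  have : -1 < 4 * b - a ^ 2 := by exact_mod_cast h2
  omega

lemma Setup.par {j : ℤ} (h : Setup (2 * j) (j ^ 2) ρ s τ) (h1 : ρ < 1) :
    ∃ η s' τ' : ℝ, Setup 0 (-j) η s' τ' := by
  have hρ := h.hρ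
  have hτ := h.hτ
  have ha := h.ha
  have hw := h.w_eq
  have hj' : (j : ℝ) = ρ / 2 + s := by push_cast at ha; linarith
  have hτ' : τ = ρ ^ 2 / 4 - ρ * s := by push_cast at hw; linarith
  have hslt : s < ρ / 4 := by
    by_contra hc
    push Not at hc
    nlinarith
  have hu : 0 < ρ - j := by rw [hj']; linarith
  have hu2 : ρ * (ρ - j) ^ 2 = 1 := by rw [← h.h1, hj', hτ']; ring
  set η : ℝ := (ρ - j) * ρ with hη
  have hη0 : 0 < η := mul_pos hu hρ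
  have hη2 : η ^ 2 = ρ := by
    calc η ^ 2 = ρ * (ρ * (ρ - j) ^ 2) := by rw [hη]; ring
      _ = ρ := by rw [hu2, mul_one]
  have hη3 : η * (η ^ 2 - j) = 1 := by rw [hη2, ← hu2, hη]; ring
  have hη1 : η < 1 := by nlinarith
  have hk : 1 ≤ η ^ 2 - j := by
    by_contra hc
    push Not at hc
    nlinarith
  exact ⟨η, -η / 2, 3 * η ^ 2 / 4 - j, hη0, by nlinarith, by rw [← hη3]; ring,
    by push_cast; ring, by push_cast; ring⟩

/-- the real embedding -/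
noncomputable def Rr (ρ : ℝ) (p q r : ℤ) : ℝ := p + q * ρ + r / ρ

lemma Setup.fac (h : Setup a b ρ s τ) (p q r : ℤ) : ((Nf a b p q r : ℤ) : ℝ) =
    Rr ρ p q r * ((p + s * (q + r * ρ)) ^ 2 + τ * (q - r * ρ) ^ 2) := by
  rw [Nf_cast, h.ha, h.hb, Nf_factor ρ s τ _ _ _ h.hρ h.h1, Rr]

lemma Setup.R_T (h : Setup a b ρ s τ) (p q r : ℤ) :
    Rr ρ (r - b * q) (p + a * q) q = ρ * Rr ρ p q r := by
  have hρ := h.hρ
  have hτ' : τ = 1 / ρ - s ^ 2 := by field_simp; linarith [h.h1]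
  unfold Rr; push_cast
  rw [h.ha, h.hb, hτ']; field_simp; ring

lemma Setup.R_T' (h : Setup a b ρ s τ) (p q r : ℤ) :
    Rr ρ (q - a * r) r (p + b * r) = ρ⁻¹ * Rr ρ p q r := by
  have hρ := h.hρ
  have hτ' : τ = 1 / ρ - s ^ 2 := by field_simp; linarith [h.h1]
  unfold Rr; push_cast
  rw [h.ha, h.hb, hτ']; field_simp; ring

/-- normalisation by a power of `θ` -/
lemma Setup.normal (h : Setup a b ρ s τ) (h1 : ρ < 1) (Λ : ℤ → ℤ → ℤ → Prop)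
    (hT : ∀ p q r, Λ p q r → Λ (r - b * q) (p + a * q) q)
    (hT' : ∀ p q r, Λ p q r → Λ (q - a * r) r (p + b * r))
    (p q r : ℤ) (hΛ : Λ p q r) (h0 : Nf a b p q r ≠ 0) (c : ℝ) (hc : 0 < c) :
    ∃ (p' q' r' : ℤ) (t : ℝ), Λ p' q' r' ∧ Nf a b p' q' r' = Nf a b p q r ∧
      t * ((ρ - s) ^ 2 + τ) = |Rr ρ p' q' r'| ∧ c ≤ t ∧ ρ * t < c := by
  have hρ := h.hρ
  have hg := h.g_pos
  have hall : ∀ k : ℤ, ∃ p' q' r' : ℤ, Λ p' q' r' ∧ Nf a b p' q' r' = Nf a b p q r ∧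
      Rr ρ p' q' r' = (ρ⁻¹) ^ k * Rr ρ p q r := by
    intro k
    induction k using Int.induction_on with
    | zero => exact ⟨p, q, r, hΛ, rfl, by simp⟩
    | succ i ih =>
      obtain ⟨p', q', r', h1, h2, h3⟩ := ih
      refine ⟨_, _, _, hT' _ _ _ h1, by rw [Nf_T', h2], ?_⟩
      rw [zpow_add_one₀ (by positivity), mul_right_comm, ← h3, h.R_T', mul_comm]
    | pred i ih =>
      obtain ⟨p', q', r', h1, h2, h3⟩ := ih
      refine ⟨_, _, _, hT _ _ _ h1, by rw [Nf_T, h2], ?_⟩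
      rw [zpow_sub_one₀ (by positivity), mul_right_comm, ← h3, h.R_T, inv_inv, mul_comm]
  have hR0 : Rr ρ p q r ≠ 0 := by
    intro h1
    apply h0
    have := h.fac p q r
    rw [h1, zero_mul] at this
    exact_mod_cast this
  have hinv : 1 < ρ⁻¹ := one_lt_inv_iff₀.mpr ⟨hρ, h1⟩
  set g := (ρ - s) ^ 2 + τ with hgdef
  have hpos : 0 < |Rr ρ p q r| / (g * c) := by positivity
  obtain ⟨n, hn1, hn2⟩ := exists_mem_Ico_zpow hpos hinv
  obtain ⟨p', q', r', h1, h2, h3⟩ := hall (-n)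
  have hy : 0 < (ρ⁻¹) ^ n := by positivity
  refine ⟨p', q', r', c * (|Rr ρ p q r| / (g * c)) / (ρ⁻¹) ^ n, h1, h2, ?_, ?_, ?_⟩
  · rw [h3, abs_mul, zpow_neg, abs_of_pos (by positivity : 0 < ((ρ⁻¹) ^ n)⁻¹)]; field_simp
  · rw [le_div_iff₀ hy]; exact mul_le_mul_of_nonneg_left hn1 hc.le
  · rw [zpow_add_one₀ (by positivity)] at hn2
    rw [← mul_div_assoc, div_lt_iff₀ hy]
    have := mul_lt_mul_of_pos_left hn2 (mul_pos hρ hc)
    have e : ρ * c * (ρ⁻¹ ^ n * ρ⁻¹) = c * ρ⁻¹ ^ n := by field_simp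
    rw [e] at this
    linarith

/-- the basic inequality for the coefficient of `1 / θ` -/
lemma Setup.key (h : Setup a b ρ s τ) (p q r : ℤ) (t : ℝ) (ht0 : 0 ≤ t)
    (ht : t * ((ρ - s) ^ 2 + τ) = |Rr ρ p q r|) (hr : t ≤ |(r : ℝ)|) :
    t * (|(r : ℝ)| - t) ^ 2 * ((Dl a b : ℤ) : ℝ) ≤ 4 * |((Nf a b p q r : ℤ) : ℝ)| := by
  have hρ := h.hρ
  have hτ := h.hτ
  have hg := h.g_pos
  rw [h.Dl_eq, h.fac]
  have hid : (r : ℝ) * ((ρ - s) ^ 2 + τ) =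
      Rr ρ p q r - ((p + s * (q + r * ρ)) - (s - ρ) * (q - r * ρ)) := by
    have hτ' : τ = 1 / ρ - s ^ 2 := by field_simp; linarith [h.h1]
    unfold Rr; rw [hτ']; field_simp; ring
  set X : ℝ := p + s * (q + r * ρ)
  set u : ℝ := q - r * ρ
  set g : ℝ := (ρ - s) ^ 2 + τ with hgdef
  set R := Rr ρ p q r
  have hQ0 : 0 ≤ X ^ 2 + τ * u ^ 2 := by positivity
  rw [abs_mul, abs_of_nonneg hQ0, ← ht]
  have e1 : (|(r : ℝ)| - t) * g ≤ |X - (s - ρ) * u| := by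
    have : |(r : ℝ)| * g = |R - (X - (s - ρ) * u)| := by rw [← hid, abs_mul, abs_of_pos hg]
    rw [sub_mul, this, ht]
    have := abs_sub R (X - (s - ρ) * u)
    linarith
  have e0 : 0 ≤ (|(r : ℝ)| - t) * g := mul_nonneg (by linarith) hg.le
  have e2 : ((|(r : ℝ)| - t) * g) ^ 2 ≤ (X - (s - ρ) * u) ^ 2 := by
    rw [← sq_abs (X - (s - ρ) * u)]; exact pow_le_pow_left₀ e0 e1 2
  have e3 : τ * (X - (s - ρ) * u) ^ 2 ≤ (X ^ 2 + τ * u ^ 2) * g := by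
    have : (X ^ 2 + τ * u ^ 2) * g - τ * (X - (s - ρ) * u) ^ 2 = ((s - ρ) * X + τ * u) ^ 2 := by
      rw [hgdef]; ring
    nlinarith [sq_nonneg ((s - ρ) * X + τ * u)]
  have e4 : τ * ((|(r : ℝ)| - t) * g) ^ 2 ≤ (X ^ 2 + τ * u ^ 2) * g :=
    (mul_le_mul_of_nonneg_left e2 hτ.le).trans e3
  have e5 := mul_le_mul_of_nonneg_left e4 ht0
  nlinarith

lemma Setup.bnd (h : Setup a b ρ s τ) (p q r K E B : ℤ) (t : ℝ) (hE : 0 < E) (hB0 : 0 ≤ B)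
    (ht : t * ((ρ - s) ^ 2 + τ) = |Rr ρ p q r|) (hlo : 1 ≤ t * E) (hhi : t ≤ 1)
    (hN : |Nf a b p q r| ≤ K) (hB : 4 * K * E < B ^ 2 * Dl a b) : |r| ≤ B := by
  by_contra hc
  have hc' : (B : ℝ) + 1 ≤ |(r : ℝ)| := by
    have : B + 1 ≤ |r| := by omega
    exact_mod_cast this
  have hE' : (0 : ℝ) < E := by exact_mod_cast hE
  have hB0' : (0 : ℝ) ≤ B := by exact_mod_cast hB0
  have ht0 : 0 < t := by
    by_contra h0
    push Not at h0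
    nlinarith
  have hk := h.key p q r t ht0.le ht (by linarith)
  have hN' : |((Nf a b p q r : ℤ) : ℝ)| ≤ K := by exact_mod_cast hN
  have hB' : (4 * K * E : ℝ) < (B : ℝ) ^ 2 * ((Dl a b : ℤ) : ℝ) := by exact_mod_cast hB
  have hD : (0 : ℝ) < ((Dl a b : ℤ) : ℝ) := by exact_mod_cast h.Dl_pos
  set D : ℝ := ((Dl a b : ℤ) : ℝ)
  have e1 : (B : ℝ) ^ 2 ≤ (|(r : ℝ)| - t) ^ 2 := pow_le_pow_left₀ hB0' (by linarith) 2
  have e2 : t * ((B : ℝ) ^ 2 * D) ≤ 4 * K := by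
    have := mul_le_mul_of_nonneg_right (mul_le_mul_of_nonneg_left e1 ht0.le) hD.le
    nlinarith
  have e3 : 0 ≤ (B : ℝ) ^ 2 * D := by positivity
  have e4 := mul_le_mul_of_nonneg_right e2 hE'.le
  nlinarith

/-- a small-norm element can be moved into an explicit box -/
lemma Setup.search (h : Setup a b ρ s τ) (h1 : ρ < 1) (Λ : ℤ → ℤ → ℤ → Prop)
    (hT : ∀ p q r, Λ p q r → Λ (r - b * q) (p + a * q) q)
    (hT' : ∀ p q r, Λ p q r → Λ (q - a * r) r (p + b * r))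
    (p q r K B0 B1 B2 : ℤ) (hΛ : Λ p q r) (h0 : Nf a b p q r ≠ 0) (hN : |Nf a b p q r| ≤ K)
    (hB0 : 0 ≤ B0) (hB1 : 0 ≤ B1) (hB2 : 0 ≤ B2)
    (c0 : 4 * K * (b + 2) < B0 ^ 2 * Dl a b) (c1 : 4 * K * (b + 2) ^ 2 < B1 ^ 2 * Dl a b)
    (c2 : 4 * K * (b + 2) ^ 3 < B2 ^ 2 * Dl a b) :
    ∃ p' q' r' : ℤ, Λ p' q' r' ∧ Nf a b p' q' r' = Nf a b p q r ∧ |r'| ≤ B0 ∧ |q'| ≤ B1 ∧
      |p' + a * q'| ≤ B2 := by
  have hρ := h.hρ
  have hβ := h.beta h1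
  have hβ0 : (0 : ℝ) < b + 2 := by
    by_contra hc
    push Not at hc
    nlinarith
  have hβ0' : 0 < b + 2 := by exact_mod_cast hβ0
  obtain ⟨p', q', r', t, hΛ', hN', ht, hlo, hhi⟩ :=
    h.normal h1 Λ hT hT' p q r hΛ h0 (1 / (b + 2)) (by positivity)
  have hlo' : 1 ≤ t * (b + 2) := by rwa [div_le_iff₀ hβ0] at hlo
  have ht0 : 0 < t := lt_of_lt_of_le (by positivity) hlo
  have hhi' : t ≤ 1 := by
    rw [lt_div_iff₀ hβ0] at hhi
    nlinarith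
  have hρt : ρ * t ≤ 1 := by nlinarith
  have hρt2 : ρ * (ρ * t) ≤ 1 := by nlinarith [mul_pos hρ ht0]
  have l1 : 1 ≤ ρ * t * (b + 2) ^ 2 := by
    have := mul_le_mul hβ hlo' zero_le_one (by linarith)
    nlinarith
  have l2 : 1 ≤ ρ * (ρ * t) * (b + 2) ^ 3 := by
    have := mul_le_mul hβ l1 zero_le_one (by linarith)
    nlinarith
  refine ⟨p', q', r', hΛ', hN', ?_, ?_, ?_⟩
  · exact h.bnd p' q' r' K (b + 2) B0 t hβ0' hB0 ht (by push_cast; exact hlo') hhi'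
      (by rw [hN']; exact hN) c0
  · refine h.bnd (r' - b * q') (p' + a * q') q' K ((b + 2) ^ 2) B1 (ρ * t) (by positivity) hB1 ?_
      (by push_cast; exact l1) hρt (by rw [Nf_T, hN']; exact hN) c1
    rw [h.R_T, abs_mul, abs_of_pos hρ, ← ht]; ring
  · refine h.bnd (q' - b * (p' + a * q')) (r' - b * q' + a * (p' + a * q')) (p' + a * q') K
      ((b + 2) ^ 3) B2 (ρ * (ρ * t)) (by positivity) hB2 ?_
      (by push_cast; exact l2) hρt2 (by rw [Nf_T, Nf_T, hN']; exact hN) c2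
    rw [h.R_T, h.R_T, abs_mul, abs_mul, abs_of_pos hρ, ← ht]; ring

/-- for large discriminants the coefficient of `1 / θ` can be removed -/
lemma Setup.outer (h : Setup a b ρ s τ) (h1 : ρ ≤ 1 / 64) (Λ : ℤ → ℤ → ℤ → Prop)
    (hT : ∀ p q r, Λ p q r → Λ (r - b * q) (p + a * q) q)
    (hT' : ∀ p q r, Λ p q r → Λ (q - a * r) r (p + b * r))
    (p q r K : ℤ) (hΛ : Λ p q r) (h0 : Nf a b p q r ≠ 0) (hN : |Nf a b p q r| ≤ K)
    (hD : 128 * K * (b + 2) < 9 * Dl a b) :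
    ∃ p' q' : ℤ, Λ p' q' 0 ∧ Nf a b p' q' 0 = Nf a b p q r ∧
      ρ * ((ρ - s) ^ 2 + τ) ≤ 2 * |Rr ρ p' q' 0| := by
  have hρ := h.hρ
  have hβ := h.beta (by linarith)
  obtain ⟨p', q', r', t, hΛ', hN', ht, hlo, hhi⟩ :=
    h.normal (by linarith) Λ hT hT' p q r hΛ h0 (ρ / 2) (by positivity)
  have ht0 : 0 < t := lt_of_lt_of_le (by positivity) hlo
  have hhi' : t < 1 / 2 := by
    by_contra hc
    push Not at hc
    nlinarith
  have hr : r' = 0 := by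
    by_contra hr
    have hr1 : (1 : ℝ) ≤ |(r' : ℝ)| := by exact_mod_cast Int.one_le_abs hr
    have hk := h.key p' q' r' t ht0.le ht (by linarith)
    have hN2 : |((Nf a b p' q' r' : ℤ) : ℝ)| ≤ K := by rw [hN']; exact_mod_cast hN
    have hD' : (128 * K * (b + 2) : ℝ) < 9 * ((Dl a b : ℤ) : ℝ) := by exact_mod_cast hD
    have hD0 : (0 : ℝ) < ((Dl a b : ℤ) : ℝ) := by exact_mod_cast h.Dl_pos
    set D : ℝ := ((Dl a b : ℤ) : ℝ)
    have e1 : (1 - t) ^ 2 ≤ (|(r' : ℝ)| - t) ^ 2 := pow_le_pow_left₀ (by linarith) (by linarith) 2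
    have e2 : 9 / 32 * ρ ≤ t * (1 - t) ^ 2 := by
      rcases le_total t (1 / 4) with h4 | h4
      · have : 9 / 16 ≤ (1 - t) ^ 2 := by nlinarith
        nlinarith
      · have : 1 / 4 ≤ (1 - t) ^ 2 := by nlinarith
        nlinarith
    have e3 : 9 / 32 * ρ * D ≤ 4 * K := by
      have a1 := mul_le_mul_of_nonneg_left e1 ht0.le
      have a2 := mul_le_mul_of_nonneg_right (e2.trans a1) hD0.le
      linarith
    have hβ0 : (0 : ℝ) < b + 2 := by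
      by_contra hc
      push Not at hc
      nlinarith
    have e4 := mul_le_mul_of_nonneg_right e3 hβ0.le
    have e5 := mul_le_mul_of_nonneg_right hβ hD0.le
    nlinarith
  subst hr
  refine ⟨p', q', hΛ', hN', ?_⟩
  rw [← ht]
  nlinarith [h.g_pos]

lemma Dl_lb (a b w : ℤ) (hb : 66 < b) (hw0 : 0 ≤ w) (hw : w ≤ 4 * b - a ^ 2) :
    2 * w * (b ^ 2 - b) - b ^ 2 ≤ 2 * Dl a b := by
  have ha : 4 * a ≤ b := by nlinarith
  have e : Dl a b = (4 * b - a ^ 2) * (b ^ 2 - 4 * a) - 2 * a * b + 27 := by unfold Dl; ring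
  have e1 : w * (b ^ 2 - b) ≤ (4 * b - a ^ 2) * (b ^ 2 - 4 * a) :=
    mul_le_mul hw (by linarith) (by nlinarith) (by linarith)
  rw [e]; nlinarith

end Pool.Agent.H5124
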