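import Mathlib
import Pool.Agent.H.MP_51245c_nt.C

set_option autoImplicit false

namespace Pool.Agent.H5124

open Pool.Agent.H4489 Polynomial Matrix

def ta (M : Matrix (Fin 3) (Fin 3) ℤ) : ℤ := M 0 0 + M 1 1 + M 2 2

def tb (M : Matrix (Fin 3) (Fin 3) ℤ) : ℤ :=
  M 0 0 * M 1 1 - M 0 1 * M 1 0 + (M 0 0 * M 2 2 - M 0 2 * M 2 0) + (M 1 1 * M 2 2 - M 1 2 * M 2 1)

/-- the cubic `t ^ 3 - a t ^ 2 + b t - 1` -/
noncomputable def cub (R : Type*) [CommRing R] (a b : ℤ) : R[X] :=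
  X ^ 3 - C (a : R) * X ^ 2 + C (b : R) * X - 1

lemma cp_eq (M : Matrix (Fin 3) (Fin 3) ℤ) (h : M.det = 1) : M.charpoly = cub ℤ (ta M) (tb M) := by
  apply Polynomial.funext
  intro t
  rw [eval_charpoly, det_fin_three]
  rw [det_fin_three] at h
  have e : ∀ i j, (Matrix.scalar (Fin 3) t - M) i j = (if i = j then t else 0) - M i j := by
    intro i j
    rw [Matrix.sub_apply, Matrix.scalar_apply, diagonal_apply]
  simp only [e]
  simp [cub, ta, tb]
  linear_combination -h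

lemma cub_map (R : Type*) [CommRing R] (a b : ℤ) :
    (cub ℤ a b).map (Int.castRingHom R) = cub R a b := by
  simp [cub]

lemma cub_monic (R : Type*) [CommRing R] [Nontrivial R] (a b : ℤ) :
    (cub R a b).Monic ∧ (cub R a b).natDegree = 3 := by
  unfold cub
  constructor
  · monicity!
  · compute_degree!

lemma cub_irr (a b : ℤ) (h1 : a ≠ b) (h2 : a + b + 2 ≠ 0) : Irreducible (cub ℚ a b) := by
  rw [irreducible_iff_roots_eq_zero_of_degree_le_three (by rw [(cub_monic ℚ a b).2]; norm_num)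
    (by rw [(cub_monic ℚ a b).2])]
  rw [Multiset.eq_zero_iff_forall_notMem]
  intro x hx
  have hx0 : aeval x (cub ℤ a b) = 0 := by
    have := (mem_roots'.mp hx).2
    simpa [cub] using this
  obtain ⟨k, hk⟩ := isInteger_of_is_root_of_monic (cub_monic ℤ a b).1 hx0
  rw [← hk] at hx0
  have hk' : k * (k ^ 2 - a * k + b) = 1 := by
    have : ((k * (k ^ 2 - a * k + b) : ℤ) : ℚ) = 1 := by
      simp [cub] at hx0
      push_cast
      linear_combination hx0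
    exact_mod_cast this
  rcases Int.eq_one_or_neg_one_of_mul_eq_one hk' with h | h
  · rw [h] at hk'; apply h1; linarith
  · rw [h] at hk'; apply h2; linarith

lemma ne_of_irr {a b : ℤ} (h : Irreducible (cub ℚ a b)) : a ≠ b := by
  rintro rfl
  rw [irreducible_iff_roots_eq_zero_of_degree_le_three (by rw [(cub_monic ℚ a a).2]; norm_num)
    (by rw [(cub_monic ℚ a a).2])] at h
  have : (1 : ℚ) ∈ (cub ℚ a a).roots := by
    rw [mem_roots (cub_monic ℚ a a).1.ne_zero]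
    simp [cub]
  rw [h] at this
  simp at this

lemma setup_of_root (a b : ℤ) (z : ℂ) (hzi : z.im ≠ 0) (hz : z ∈ (cub ℂ a b).roots) :
    ∃ ρ s τ : ℝ, Setup a b ρ s τ := by
  have hp : z ^ 3 - (a : ℂ) * z ^ 2 + (b : ℂ) * z - 1 = 0 := by
    have := (mem_roots'.mp hz).2
    simpa [cub] using this
  have hre := congrArg Complex.re hp
  have him := congrArg Complex.im hp
  simp [pow_succ] at hre him
  have hb : (b : ℝ) = 2 * (a - 2 * z.re) * z.re + z.re ^ 2 + z.im ^ 2 := by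
    apply mul_left_cancel₀ hzi
    linear_combination him
  have h1 : (a - 2 * z.re) * (z.re ^ 2 + z.im ^ 2) = 1 := by
    rw [hb] at hre
    linear_combination hre
  have hτ : 0 < z.im ^ 2 := by positivity
  refine ⟨a - 2 * z.re, z.re, z.im ^ 2, ?_, hτ, h1, by ring, hb⟩
  by_contra hc
  push Not at hc
  nlinarith [sq_nonneg z.re]

lemma roots_of_Dl (a b : ℤ) (hD : 0 < Dl a b) :
    ∃ (ρ : ℝ) (z : ℂ), z.im ≠ 0 ∧ (cub ℂ a b).roots = {(ρ : ℂ), z, (starRingEnd ℂ) z} := by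
  have hc : ContinuousOn (fun t : ℝ => t ^ 3 - a * t ^ 2 + b * t - 1)
      (Set.Icc 0 (|(a : ℝ)| + |(b : ℝ)| + 1)) := by fun_prop
  have hT : (0 : ℝ) ≤ |(a : ℝ)| + |(b : ℝ)| + 1 := by positivity
  have hmem : (0 : ℝ) ∈ Set.Icc ((0 : ℝ) ^ 3 - a * 0 ^ 2 + b * 0 - 1)
      ((|(a : ℝ)| + |(b : ℝ)| + 1) ^ 3 - a * (|(a : ℝ)| + |(b : ℝ)| + 1) ^ 2
        + b * (|(a : ℝ)| + |(b : ℝ)| + 1) - 1) := by
    constructor
    · norm_num
    · have a1 := le_abs_self (a : ℝ)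
      have a2 := neg_abs_le (b : ℝ)
      have a3 := abs_nonneg (a : ℝ)
      have a4 := abs_nonneg (b : ℝ)
      set T := |(a : ℝ)| + |(b : ℝ)| + 1 with hTdef
      have hT1 : 1 ≤ T := by linarith
      have e1 : (|(b : ℝ)| + 1) * T ^ 2 ≤ (T - a) * T ^ 2 :=
        mul_le_mul_of_nonneg_right (by linarith) (by positivity)
      have e2 : (|(b : ℝ)| + 1) * T ≤ (|(b : ℝ)| + 1) * T ^ 2 :=
        mul_le_mul_of_nonneg_left (by nlinarith) (by linarith)
      nlinarith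
  obtain ⟨ρ, hρI, hρ⟩ := intermediate_value_Icc hT hc hmem
  have hρ' : ρ ^ 3 - a * ρ ^ 2 + b * ρ - 1 = 0 := hρ
  have hρ0 : 0 < ρ := by
    rcases hρI.1.lt_or_eq with h | h
    · exact h
    · rw [← h] at hρ'; norm_num at hρ'
  set s : ℝ := (a - ρ) / 2 with hs
  set τ : ℝ := 1 / ρ - s ^ 2 with hτ
  have ha : (a : ℝ) = ρ + 2 * s := by rw [hs]; ring
  have h1 : ρ * (s ^ 2 + τ) = 1 := by rw [hτ]; field_simp; ring
  have hb : (b : ℝ) = 2 * ρ * s + s ^ 2 + τ := by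
    apply mul_left_cancel₀ hρ0.ne'
    rw [ha] at hρ'
    linear_combination hρ' - h1
  have hτ0 : 0 < τ := by
    have e := Dl_real ρ s τ hρ0 h1 a b ha hb
    have hD' : (0 : ℝ) < ((Dl a b : ℤ) : ℝ) := by exact_mod_cast hD
    by_contra hc
    push Not at hc
    nlinarith [sq_nonneg ((ρ - s) ^ 2 + τ)]
  obtain ⟨t, ht0, ht⟩ : ∃ t : ℝ, 0 < t ∧ t ^ 2 = τ :=
    ⟨Real.sqrt τ, Real.sqrt_pos.mpr hτ0, Real.sq_sqrt hτ0.le⟩
  refine ⟨ρ, s + t * Complex.I, by simpa using ht0.ne', ?_⟩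
  rw [← roots_multiset_prod_X_sub_C ({(ρ : ℂ), s + t * Complex.I,
    (starRingEnd ℂ) (s + t * Complex.I)} : Multiset ℂ)]
  congr 1
  apply Polynomial.funext
  intro x
  have ha' : (a : ℂ) = ρ + 2 * s := by exact_mod_cast congrArg (fun y : ℝ => (y : ℂ)) ha
  have hb' : (b : ℂ) = 2 * ρ * s + s ^ 2 + t ^ 2 := by
    rw [← ht] at hb; exact_mod_cast congrArg (fun y : ℝ => (y : ℂ)) hb
  have h1' : (ρ : ℂ) * (s ^ 2 + t ^ 2) = 1 := by
    rw [← ht] at h1; exact_mod_cast congrArg (fun y : ℝ => (y : ℂ)) h1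
  simp [cub, ha', hb']
  linear_combination h1' + (x - ρ) * (t : ℂ) ^ 2 * Complex.I_sq

lemma indep {a b : ℤ} {ρ s τ : ℝ} (h : Setup a b ρ s τ) (hi : Irreducible (cub ℚ a b))
    (p q r : ℤ) (h0 : (q : ℝ) * ρ ^ 2 + p * ρ + r = 0) : p = 0 ∧ q = 0 ∧ r = 0 := by
  have hroot : aeval ρ (cub ℚ a b) = 0 := by
    simp [cub]
    rw [h.ha, h.hb]
    linear_combination h.h1
  have hmin : cub ℚ a b = minpoly ℚ ρ :=
    minpoly.eq_of_irreducible_of_monic hi hroot (cub_monic ℚ a b).1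
  have hP : (C (q : ℚ) * X ^ 2 + C (p : ℚ) * X + C (r : ℚ) : ℚ[X]) = 0 := by
    by_contra hne
    have h1 := minpoly.degree_le_of_ne_zero ℚ ρ hne (by simpa using h0)
    have h2 := natDegree_le_natDegree h1
    rw [← hmin, (cub_monic ℚ a b).2] at h2
    have h3 : (C (q : ℚ) * X ^ 2 + C (p : ℚ) * X + C (r : ℚ) : ℚ[X]).natDegree ≤ 2 := by
      compute_degree
    omega
  have e0 := congrArg (eval 0) hP
  have e1 := congrArg (eval 1) hP
  have e2 := congrArg (eval (-1)) hP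
  simp only [eval_add, eval_mul, eval_C, eval_pow, eval_X, eval_zero] at e0 e1 e2
  have hp : (p : ℚ) = 0 := by linarith
  have hq : (q : ℚ) = 0 := by linarith
  have hr : (r : ℚ) = 0 := by linarith
  exact ⟨by exact_mod_cast hp, by exact_mod_cast hq, by exact_mod_cast hr⟩

lemma Nf_ne {a b : ℤ} {ρ s τ : ℝ} (h : Setup a b ρ s τ) (hi : Irreducible (cub ℚ a b))
    (p q r : ℤ) (h0 : Nf a b p q r = 0) : p = 0 ∧ q = 0 ∧ r = 0 := by
  have hρ := h.hρ
  have hτ := h.hτ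
  have := h.fac p q r
  rw [h0] at this
  push_cast at this
  rcases mul_eq_zero.mp this.symm with h1 | h1
  · apply indep h hi
    unfold Rr at h1
    field_simp at h1
    linarith
  · have hu : (q : ℝ) - r * ρ = 0 := by
      by_contra hu
      have : 0 < τ * ((q : ℝ) - r * ρ) ^ 2 := by positivity
      nlinarith [sq_nonneg ((p : ℝ) + s * (q + r * ρ))]
    obtain ⟨hr, -, hq⟩ := indep h hi r 0 (-q) (by push_cast; linarith)
    have hq' : q = 0 := by omega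
    subst hr hq'
    simp at h1
    exact ⟨h1, rfl, rfl⟩

def d3 (x y z : Fin 3 → ℤ) : ℤ :=
  x 0 * (y 1 * z 2 - y 2 * z 1) - x 1 * (y 0 * z 2 - y 2 * z 0) + x 2 * (y 0 * z 1 - y 1 * z 0)

lemma d3_mul (P : Matrix (Fin 3) (Fin 3) ℤ) (x y z : Fin 3 → ℤ) :
    d3 (P *ᵥ x) (P *ᵥ y) (P *ᵥ z) = P.det * d3 x y z := by
  simp only [d3, mulVec, dotProduct, Fin.sum_univ_three, det_fin_three]
  ring

lemma d3_hess (M : Matrix (Fin 3) (Fin 3) ℤ) (h : M 2 0 = 0) :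
    d3 ![1, 0, 0] (M *ᵥ ![1, 0, 0]) (M *ᵥ (M *ᵥ ![1, 0, 0])) = M 1 0 ^ 2 * M 2 1 := by
  simp [d3, mulVec, dotProduct, Fin.sum_univ_three, h]
  ring

lemma conjF (M P Q : Matrix (Fin 3) (Fin 3) ℤ) (hQP : Q * P = 1) (h : (P * M * Q) 2 0 = 0) :
    |d3 (Q *ᵥ ![1, 0, 0]) (M *ᵥ (Q *ᵥ ![1, 0, 0])) (M *ᵥ (M *ᵥ (Q *ᵥ ![1, 0, 0])))| =
      (P * M * Q) 1 0 ^ 2 * |(P * M * Q) 2 1| := by
  have hMQ : ∀ y : Fin 3 → ℤ, M *ᵥ (Q *ᵥ y) = Q *ᵥ ((P * M * Q) *ᵥ y) := by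
    intro y
    rw [mulVec_mulVec, mulVec_mulVec, ← mul_assoc, ← mul_assoc, hQP, one_mul]
  have hQd : |Q.det| = 1 := by
    have : Q.det * P.det = 1 := by rw [← det_mul, hQP, det_one]
    rcases Int.eq_one_or_neg_one_of_mul_eq_one this with h | h <;> rw [h] <;> rfl
  rw [hMQ, hMQ, d3_mul, d3_hess _ h, abs_mul, hQd, one_mul, abs_mul, abs_pow, sq_abs]

/-- kernel-friendly bounded quantifier -/
def allN (n : ℕ) (f : ℕ → Bool) : Bool := Nat.rec true (fun i ih => f i && ih) n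

lemma allN_spec {n : ℕ} {f : ℕ → Bool} (h : allN n f = true) (i : ℕ) (hi : i < n) :
    f i = true := by
  induction n with
  | zero => omega
  | succ k ih =>
    have h' : (f k && allN k f) = true := h
    rw [Bool.and_eq_true] at h'
    rcases Nat.lt_succ_iff_lt_or_eq.mp hi with h1 | h1
    · exact ih h'.2 h1
    · rw [h1]; exact h'.1

def forceN (n : ℕ) (k : ℕ → Bool) : Bool := Nat.casesOn n (k 0) (fun m => k (Nat.succ m))

lemma forceN_eq (n : ℕ) (k : ℕ → Bool) : forceN n k = k n := by cases n <;> rfl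

def force (x : ℤ) (k : ℤ → Bool) : Bool :=
  Int.casesOn x (fun n => forceN n (fun m => k (Int.ofNat m)))
    (fun n => forceN n (fun m => k (Int.negSucc m)))

lemma force_eq (x : ℤ) (k : ℤ → Bool) : force x k = k x := by
  cases x <;> simp [force, forceN_eq]

def sq (x : ℤ) : ℕ := Nat.sqrt x.toNat + 1

end Pool.Agent.H5124
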