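import Mathlib
import Pool.Agent.H.MP_51245c_nt.D

set_option autoImplicit false

namespace Pool.Agent.H5124

def innerN (p2 m2 p1 m1 p0 m0 I : ℕ) : Bool :=
  allN I fun i =>
    forceN (Nat.add (Nat.mul (Nat.add (Nat.mul (Nat.add (Nat.mul 216 i) p2) i) p1) i) p0) fun P =>
      forceN (Nat.add (Nat.mul (Nat.add (Nat.mul m2 i) m1) i) m0) fun M =>
        Nat.ble (Nat.add M 199) P || Nat.ble (Nat.add P 199) M || Nat.beq P M

def inner (c2 c1 c0 p : ℤ) (I : ℕ) : Bool :=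
  force c2 fun c2 => force c1 fun c1 => force p fun p =>
    force (36 * (3 * p + c2)) fun A2 => force (6 * ((3 * p + 2 * c2) * p + c1)) fun A1 =>
      force (((p + c2) * p + c1) * p + c0) fun A0 =>
        forceN A2.toNat fun p2 => forceN (-A2).toNat fun m2 =>
          forceN A1.toNat fun p1 => forceN (-A1).toNat fun m1 =>
            forceN A0.toNat fun p0 => forceN (-A0).toNat fun m0 => innerN p2 m2 p1 m1 p0 m0 I

def box (a b : ℤ) (B0 B1 B2 : ℕ) : Bool :=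
  allN (B0 + 1) fun r => allN (2 * B1 / 3 + 1) fun j =>
    force (-(B1 : ℤ) + ((B1 : ℤ) - r) % 3 + 3 * (j : ℤ)) fun q =>
      inner (a * q + b * r) ((a * b - 3) * q * r + b * q ^ 2 + a * r ^ 2)
        (q ^ 3 + r ^ 3 + (b ^ 2 - 2 * a) * q ^ 2 * r + (a ^ 2 - 2 * b) * q * r ^ 2)
        (-(B2 : ℤ) + ((B2 : ℤ) + r + 3 * (a * q - q)) % 6 - a * q) (2 * B2 / 6 + 1)

def L5 : List (ℤ × ℤ) :=
  [(-20, 102), (-18, 82), (-11, 33), (-8, 18), (-8, 24), (-6, 10), (-6, 16), (-5, 9), (-5, 15),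
    (-3, 7), (-3, 13), (-2, 6), (-2, 12), (0, 4), (0, 10), (1, 3), (1, 9), (3, 7), (3, 13), (4, 6),
    (4, 12), (6, 10), (6, 16), (7, 15), (9, 25), (16, 66), (18, 82)]

def pair (a b : ℤ) : Bool :=
  decide ((a - b) % 2 ≠ 0) || decide ((a + b) % 3 ≠ 1) || decide (b ≤ a) ||
  force (Dl a b) fun D => decide (D ≤ 0) || decide (2816 * (b + 2) < D ∧ 384 < b) ||
    decide ((a, b) ∈ L5) ||
    forceN (sq (792 * (b + 2) / D)) fun B0 => forceN (sq (792 * (b + 2) ^ 2 / D)) fun B1 =>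
      forceN (sq (792 * (b + 2) ^ 3 / D)) fun B2 =>
        decide (4 * 198 * (b + 2) < (B0 : ℤ) ^ 2 * D) &&
          decide (4 * 198 * (b + 2) ^ 2 < (B1 : ℤ) ^ 2 * D) &&
          decide (4 * 198 * (b + 2) ^ 3 < (B2 : ℤ) ^ 2 * D) && box a b B0 B1 B2

def row (a : ℤ) : Bool :=
  decide (a % 3 = 2) || allN 69 fun k => force ((a ^ 2 - 4) / 4 + (k : ℤ)) fun b => pair a b

def rows (a0 : ℤ) (n : ℕ) : Bool := allN n fun i => force (a0 + (i : ℤ)) row

end Pool.Agent.H5124
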