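import Mathlib
import Pool.Agent.H.MP_51245c_nt.F

set_option autoImplicit false

namespace Pool.Agent.H5124

theorem rows_pos : rows 0 69 = true := by decide +kernel

end Pool.Agent.H5124
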