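import Mathlib
import Pool.Agent.H.MP_51245c_nt.F1
import Pool.Agent.H.MP_51245c_nt.F2

set_option autoImplicit false

namespace Pool.Agent.H5124

open Pool.Agent.H4489

lemma innerN_spec {p2 m2 p1 m1 p0 m0 I : ℕ} (h : innerN p2 m2 p1 m1 p0 m0 I = true) (i : ℕ)
    (hi : i < I) (v : ℤ)
    (hv : v = ((216 * (i : ℤ) + ((p2 : ℤ) - m2)) * i + ((p1 : ℤ) - m1)) * i + ((p0 : ℤ) - m0)) :
    v = 0 ∨ 199 ≤ |v| := by
  have h1 := allN_spec h i hi
  simp only [forceN_eq, Bool.or_eq_true, Nat.ble_eq, Nat.beq_eq, Nat.add_eq, Nat.mul_eq] at h1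
  have e : v = ((((216 * i + p2) * i + p1) * i + p0 : ℕ) : ℤ) - (((m2 * i + m1) * i + m0 : ℕ) : ℤ) := by
    rw [hv]; push_cast; ring
  generalize ((216 * i + p2) * i + p1) * i + p0 = P at h1 e
  generalize (m2 * i + m1) * i + m0 = M at h1 e
  rcases h1 with (h1 | h1) | h1
  · right; rw [le_abs]; omega
  · right; rw [le_abs]; omega
  · left; omega

lemma inner_spec {c2 c1 c0 p : ℤ} {I : ℕ} (h : inner c2 c1 c0 p I = true) (i : ℕ) (hi : i < I)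
    (v : ℤ) (hv : v = ((p + 6 * i + c2) * (p + 6 * i) + c1) * (p + 6 * i) + c0) :
    v = 0 ∨ 199 ≤ |v| := by
  simp only [inner, force_eq, forceN_eq] at h
  apply innerN_spec h i hi
  rw [Int.toNat_sub_toNat_neg, Int.toNat_sub_toNat_neg, Int.toNat_sub_toNat_neg, hv]
  ring

def Lam (a p q r : ℤ) : Prop := 3 ∣ q + r ∧ 3 ∣ p + a * q - r ∧ 2 ∣ p + q + r

def S5 (a b : ℤ) : Prop := ∃ p q r : ℤ, Lam a p q r ∧ Nf a b p q r ≠ 0 ∧ |Nf a b p q r| ≤ 198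

lemma box_spec0 {a b : ℤ} {B0 B1 B2 : ℕ} (h : box a b B0 B1 B2 = true) (p q r : ℤ)
    (hΛ : Lam a p q r) (hr : 0 ≤ r) (b0 : |r| ≤ B0) (b1 : |q| ≤ B1) (b2 : |p + a * q| ≤ B2) :
    Nf a b p q r = 0 ∨ 199 ≤ |Nf a b p q r| := by
  obtain ⟨r, rfl⟩ := Int.eq_ofNat_of_zero_le hr
  obtain ⟨l1, l2, l3⟩ := hΛ
  have b0' := abs_le.mp b0
  have b1' := abs_le.mp b1
  have b2' := abs_le.mp b2
  have x1 := allN_spec h r (by omega)
  have x2 := allN_spec x1 ((q + B1) / 3).toNat (by omega)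
  rw [force_eq] at x2
  have eq : -(B1 : ℤ) + ((B1 : ℤ) - r) % 3 + 3 * ((((q + B1) / 3).toNat : ℕ) : ℤ) = q := by omega
  rw [eq] at x2
  apply inner_spec x2 ((p + a * q + B2) / 6).toNat (by omega)
  have ep : -(B2 : ℤ) + ((B2 : ℤ) + r + 3 * (a * q - q)) % 6 - a * q
      + 6 * ((((p + a * q + B2) / 6).toNat : ℕ) : ℤ) = p := by omega
  rw [ep]
  unfold Nf; ring

lemma box_spec {a b : ℤ} {B0 B1 B2 : ℕ} (h : box a b B0 B1 B2 = true) (p q r : ℤ)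
    (hΛ : Lam a p q r) (b0 : |r| ≤ B0) (b1 : |q| ≤ B1) (b2 : |p + a * q| ≤ B2) :
    Nf a b p q r = 0 ∨ 199 ≤ |Nf a b p q r| := by
  rcases le_total 0 r with hr | hr
  · exact box_spec0 h p q r hΛ hr b0 b1 b2
  · have e : Nf a b (-p) (-q) (-r) = - Nf a b p q r := by unfold Nf; ring
    have e2 : -p + a * -q = -(p + a * q) := by ring
    obtain ⟨l1, l2, l3⟩ := hΛ
    have := box_spec0 h (-p) (-q) (-r) ⟨by omega, by rw [e2]; omega, by omega⟩ (by omega)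
      (by rwa [abs_neg]) (by rwa [abs_neg]) (by rwa [e2, abs_neg])
    rwa [e, abs_neg, neg_eq_zero] at this

lemma Lam_aux {a b : ℤ} (h3 : 3 ∣ a + b + 2) (p q r : ℤ) (h : Lam a p q r) :
    3 ∣ r + (p + b * r) := by
  have e : r + (p + b * r) = (p + a * q - r) - a * (q + r) + (a + b + 2) * r := by ring
  rw [e]
  exact dvd_add (dvd_sub h.2.1 (h.1.mul_left a)) (h3.mul_right r)

lemma Lam_T {a b : ℤ} (h2 : 2 ∣ a - b) (h3 : 3 ∣ a + b + 2) (p q r : ℤ) (h : Lam a p q r) :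
    Lam a (r - b * q) (p + a * q) q := by
  obtain ⟨l1, l2, l3⟩ := h
  refine ⟨by omega, ?_, ?_⟩
  · have e : r - b * q + a * (p + a * q) - q =
        a * (p + a * q - r) + (a + 1) * (q + r) - (a + b + 2) * q := by ring
    rw [e]
    exact dvd_sub (dvd_add (l2.mul_left a) (l1.mul_left _)) (h3.mul_right q)
  · have e : r - b * q + (p + a * q) + q = (p + q + r) + (a - b) * q := by ring
    rw [e]
    exact dvd_add l3 (h2.mul_right q)

lemma Lam_T' {a b : ℤ} (h2 : 2 ∣ a - b) (h3 : 3 ∣ a + b + 2) (p q r : ℤ) (h : Lam a p q r) :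
    Lam a (q - a * r) r (p + b * r) := by
  have l0 := Lam_aux h3 p q r h
  obtain ⟨l1, l2, l3⟩ := h
  refine ⟨l0, by omega, ?_⟩
  have e : q - a * r + r + (p + b * r) = (p + q + r) - (a - b) * r := by ring
  rw [e]
  exact dvd_sub l3 (h2.mul_right r)

lemma rzero {a b : ℤ} {ρ s τ : ℝ} (h : Setup a b ρ s τ) (hs : ρ ≤ 1 / 64)
    (hw : 3 ≤ 4 * b - a ^ 2) (p q : ℤ) (hq : 3 ≤ |q|) (hN : |Nf a b p q 0| ≤ 198)
    (hR : ρ * ((ρ - s) ^ 2 + τ) ≤ 2 * |Rr ρ p q 0|) : b ≤ 384 ∧ 4 * b - a ^ 2 ≤ 264 := by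
  have hρ := h.hρ
  have hτ := h.hτ
  have hrs := h.rs (1 / 8) (by norm_num) (by linarith)
  have hw' : (3 : ℝ) ≤ ((4 * b - a ^ 2 : ℤ) : ℝ) := by exact_mod_cast hw
  have hwe := h.w_eq
  have hτ1 : 5 / 8 ≤ τ := by nlinarith [sq_nonneg ρ]
  have hN' : |((Nf a b p q 0 : ℤ) : ℝ)| ≤ 198 := by exact_mod_cast hN
  rw [h.fac] at hN'
  have hq' : (9 : ℝ) ≤ (q : ℝ) ^ 2 := by
    have : (3 : ℝ) ≤ |(q : ℝ)| := by exact_mod_cast hq
    rw [← sq_abs]; nlinarith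
  have hRe : Rr ρ p q 0 = p + q * ρ := by simp [Rr]
  have hg : ρ * ((ρ - s) ^ 2 + τ) = 1 - 2 * ρ * (ρ * s) + ρ ^ 3 := by linear_combination h.h1
  have hR1 : 99 / 200 ≤ |Rr ρ p q 0| := by
    have : 0 < ρ ^ 3 := by positivity
    nlinarith
  simp only [Int.cast_zero, zero_mul, add_zero, sub_zero] at hN'
  set X : ℝ := p + s * q with hX
  set R := Rr ρ p q 0
  have hQ0 : 0 ≤ X ^ 2 + τ * (q : ℝ) ^ 2 := by positivity
  rw [abs_mul, abs_of_nonneg hQ0] at hN'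
  have hQ : X ^ 2 + τ * (q : ℝ) ^ 2 ≤ 400 := by nlinarith
  have hτq : 9 * τ ≤ τ * (q : ℝ) ^ 2 := by nlinarith
  have hτ2 : τ ≤ 400 / 9 := by nlinarith [sq_nonneg X]
  have hXb := abs_le_of_sq_le_sq' (a := X) (b := 20) (by nlinarith) (by norm_num)
  have hRb : |R| ≤ 176 / 5 := by
    have : 45 / 8 ≤ X ^ 2 + τ * (q : ℝ) ^ 2 := by nlinarith [sq_nonneg X]
    nlinarith
  have hRb' := abs_le.mp hRb
  have hd : ((s - ρ) * q) ^ 2 ≤ (276 / 5) ^ 2 := by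
    have e : (s - ρ) * q = X - R := by rw [hX, hRe]; ring
    rw [e]
    apply sq_le_sq' <;> linarith [hXb.1, hXb.2, hRb'.1, hRb'.2]
  have hd2 : (s - ρ) ^ 2 ≤ 339 := by
    rw [mul_pow] at hd; nlinarith [sq_nonneg (s - ρ)]
  constructor
  · have : (b : ℝ) < 385 := by
      have e : (b : ℝ) = (s - ρ) ^ 2 + τ + 4 * (ρ * s) - ρ ^ 2 := by rw [h.hb]; ring
      rw [e]; nlinarith [sq_nonneg ρ]
    have : b < 385 := by exact_mod_cast this
    omega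
  · have : ((4 * b - a ^ 2 : ℤ) : ℝ) ≤ 264 := by rw [hwe]; nlinarith [sq_nonneg ρ]
    exact_mod_cast this

lemma region {a b : ℤ} {ρ s τ : ℝ} (h : Setup a b ρ s τ) (hab : a < b) (h2 : 2 ∣ a - b)
    (h3 : 3 ∣ a + b + 2) (ha : a % 3 ≠ 2) (hS : S5 a b) :
    a ^ 2 ≤ 68 ^ 2 ∧ 4 * b - a ^ 2 ≤ 264 ∧ (Dl a b ≤ 2816 * (b + 2) ∨ b ≤ 384) := by
  have h1 := h.lt_one hab
  have hw5 := h.w_lb h1
  by_cases hb : b ≤ 66
  · exact ⟨by linarith, by nlinarith [sq_nonneg a], Or.inr (by omega)⟩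
  push Not at hb
  have hs := h.small h1 hb
  have hw0 := h.w_nonneg hs
  have hw3 : 3 ≤ 4 * b - a ^ 2 := by
    obtain ⟨i, hi⟩ : ∃ i, a = 6 * i ∨ a = 6 * i + 1 ∨ a = 6 * i + 3 ∨ a = 6 * i + 4 :=
      ⟨a / 6, by omega⟩
    rcases hi with rfl | rfl | rfl | rfl
    · have e : (6 * i) ^ 2 = 36 * i ^ 2 := by ring
      rw [e] at hw0 ⊢; omega
    · have e : (6 * i + 1) ^ 2 = 36 * i ^ 2 + 12 * i + 1 := by ring
      rw [e] at hw0 ⊢; omega
    · have e : (6 * i + 3) ^ 2 = 36 * i ^ 2 + 36 * i + 9 := by ring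
      rw [e] at hw0 ⊢; omega
    · have e : (6 * i + 4) ^ 2 = 36 * i ^ 2 + 48 * i + 16 := by ring
      rw [e] at hw0 ⊢; omega
  by_cases hD : Dl a b ≤ 2816 * (b + 2)
  · have l3 := Dl_lb a b 3 hb (by norm_num) hw3
    have hb2 : b ≤ 1130 := by nlinarith
    refine ⟨by linarith, ?_, Or.inl hD⟩
    by_contra hc
    have l4 := Dl_lb a b 264 hb (by norm_num) (by omega)
    nlinarith
  · obtain ⟨p, q, r, hΛ, h0, hN⟩ := hS
    obtain ⟨p', q', ⟨l1, l2, l3⟩, hN', hR⟩ := h.outer hs (Lam a) (Lam_T h2 h3) (Lam_T' h2 h3)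
      p q r 198 hΛ h0 hN (by omega)
    rw [← hN'] at h0 hN
    have hq : q' ≠ 0 := by
      rintro rfl
      obtain ⟨k, rfl⟩ : ∃ k, p' = 6 * k := ⟨p' / 6, by omega⟩
      have e : Nf a b (6 * k) 0 0 = 216 * k ^ 3 := by unfold Nf; ring
      rw [e] at h0 hN
      have := abs_le.mp hN
      omega
    have := rzero h hs hw3 p' q' (by rw [le_abs]; omega) hN hR
    exact ⟨by linarith [this.1], this.2, Or.inr this.1⟩

lemma thmA {a b : ℤ} {ρ s τ : ℝ} (h : Setup a b ρ s τ) (hab : a < b) (h2 : 2 ∣ a - b)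
    (h3 : 3 ∣ a + b + 2) (ha : a % 3 ≠ 2) (hS : S5 a b) : (a, b) ∈ L5 := by
  obtain ⟨r1, r2, r3⟩ := region h hab h2 h3 ha hS
  have h1 := h.lt_one hab
  have hw5 := h.w_lb h1
  have ha' := abs_le_of_sq_le_sq' r1 (by norm_num)
  have hrow : row a = true := by
    rcases lt_or_ge a 0 with h0 | h0
    · have := allN_spec rows_neg (a + 68).toNat (by omega)
      rw [force_eq] at this
      convert this using 2
      omega
    · have := allN_spec rows_pos a.toNat (by omega)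
      rw [force_eq] at this
      convert this using 2
      omega
  simp only [row, Bool.or_eq_true, decide_eq_true_eq] at hrow
  have hp := allN_spec (hrow.resolve_left ha) (b - (a ^ 2 - 4) / 4).toNat (by omega)
  rw [force_eq] at hp
  have eb : (a ^ 2 - 4) / 4 + (((b - (a ^ 2 - 4) / 4).toNat : ℕ) : ℤ) = b := by omega
  rw [eb] at hp
  have hD := h.Dl_pos
  simp only [pair, force_eq, forceN_eq, Bool.or_eq_true, Bool.and_eq_true,
    decide_eq_true_eq] at hp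
  rcases hp with ((hp | hp) | hp) | ((hp | hp) | hp) | ⟨⟨⟨c0, c1⟩, c2⟩, hbox⟩
  · omega
  · omega
  · omega
  · omega
  · omega
  · exact hp
  · exfalso
    obtain ⟨p, q, r, hΛ, h0, hN⟩ := hS
    obtain ⟨p', q', r', hΛ', hN', b0, b1, b2⟩ := h.search h1 (Lam a) (Lam_T h2 h3) (Lam_T' h2 h3)
      p q r 198 _ _ _ hΛ h0 hN (by positivity) (by positivity) (by positivity) c0 c1 c2
    have := box_spec hbox p' q' r' hΛ' b0 b1 b2
    rw [hN'] at this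
    omega

lemma thmC {a b : ℤ} {ρ s τ : ℝ} (h : Setup a b ρ s τ) (hab : a ≠ b) (h2 : 2 ∣ a - b)
    (ha : a % 3 = 1) (hb : b % 3 = 0) (hS : S5 a b) : (a, b) ∈ L5 ∨ (b, a) ∈ L5 := by
  rcases lt_or_gt_of_ne hab with h1 | h1
  · exact Or.inl (thmA h h1 h2 (by omega) (by omega) hS)
  · refine Or.inr (thmA h.symm h1 (by omega) (by omega) (by omega) ?_)
    obtain ⟨p, q, r, hΛ, h0, hN⟩ := hS
    have l0 := Lam_aux (b := b) (by omega) p q r hΛ
    obtain ⟨l1, l2, l3⟩ := hΛ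
    have e : Nf b a p r q = Nf a b p q r := by unfold Nf; ring
    exact ⟨p, r, q, ⟨by omega, by omega, by omega⟩, by rw [e]; exact h0, by rw [e]; exact hN⟩

end Pool.Agent.H5124
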